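import Mathlib
import Pool.Agent.N402.SL.SP0

/-!
# Project IL (helper818), part IS: sufficiency at the good primes

After helper592's file `Pool.Agent.N592.SN.NPSP` (itself after helper402's file). By helper286.
-/

set_option autoImplicit false

namespace Pool.Agent.N286.IL

open PadicInt
open Pool.Agent.Z702 (LocI)
open Pool.Agent.N402.SL (sqQ int_ne)

section

variable {p : ℕ} [hp : Fact p.Prime]

/-- the product of two nonsquares is a square -/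
theorem mul_sq {a b : ZMod p} (ha : ¬ IsSquare a) (hb : ¬ IsSquare b) : IsSquare (a * b) := by
  have ha0 : a ≠ 0 := by
    rintro rfl
    exact ha (IsSquare.zero)
  have hb0 : b ≠ 0 := by
    rintro rfl
    exact hb (IsSquare.zero)
  have h1 := (quadraticChar_neg_one_iff_not_isSquare (F := ZMod p) (a := a)).2 ha
  have h2 := (quadraticChar_neg_one_iff_not_isSquare (F := ZMod p) (a := b)).2 hb
  rw [← quadraticChar_one_iff_isSquare (mul_ne_zero ha0 hb0), map_mul, h1, h2]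
  norm_num

/-- the data: `a = -2 n (2 u² - v²)`, `b = (n v²)²`, the prime `p` does not divide `2 u v δ` -/
structure Dt (p : ℕ) (n u v : ℤ) : Prop where
  h2 : p ≠ 2
  n0 : n ≠ 0
  u0 : (u : ZMod p) ≠ 0
  v0 : (v : ZMod p) ≠ 0
  δ0 : ((u ^ 2 - v ^ 2 : ℤ) : ZMod p) ≠ 0

variable {n u v : ℤ} (D : Dt p n u v)

include D

theorem Dt.two : (2 : ZMod p) ≠ 0 := by
  intro h0
  have : ((2 : ℕ) : ZMod p) = 0 := by exact_mod_cast h0
  rw [ZMod.natCast_eq_zero_iff] at this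
  exact D.h2 ((Nat.prime_dvd_prime_iff_eq hp.out Nat.prime_two).1 this)

theorem Dt.uz : u ≠ 0 := by
  rintro rfl
  exact D.u0 (by simp)

theorem Dt.vz : v ≠ 0 := by
  rintro rfl
  exact D.v0 (by simp)

theorem Dt.δz : u ^ 2 - v ^ 2 ≠ 0 := by
  intro h
  exact D.δ0 (by rw [h]; simp)

omit D in
theorem ab_eq (n u v : ℤ) : (-2 * n * (2 * u ^ 2 - v ^ 2)) ^ 2 - 4 * ((n * v ^ 2) ^ 2) =
    (u ^ 2 - v ^ 2) * (4 * n * u) ^ 2 := by ring

theorem Dt.b : (n * v ^ 2) ^ 2 ≠ 0 := pow_ne_zero 2 (mul_ne_zero D.n0 (pow_ne_zero 2 D.vz))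

theorem Dt.ab : (-2 * n * (2 * u ^ 2 - v ^ 2)) ^ 2 - 4 * ((n * v ^ 2) ^ 2) ≠ 0 := by
  rw [ab_eq]
  exact mul_ne_zero D.δz (pow_ne_zero 2 (mul_ne_zero (mul_ne_zero (by norm_num) D.n0) D.uz))

/-- squares are in the local image -/
theorem Dt.loc_sq {d : ℤ} (hdz : (d : ZMod p) ≠ 0) (hd : IsSquare (d : ZMod p)) :
    LocI ℚ_[p] (-2 * n * (2 * u ^ 2 - v ^ 2)) ((n * v ^ 2) ^ 2) d := by
  have hd0 : d ≠ 0 := by
    rintro rfl
    exact hdz (by simp)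
  exact (Pool.Agent.Z864.LQ.t_LQ _ _ d D.b D.ab hd0).1 p
    (Or.inl (sqQ D.h2 d ((quadraticChar_one_iff_isSquare hdz).2 hd)))

/-- `δ` times squares are in the local image -/
theorem Dt.loc_sqc {d : ℤ} (hdz : (d : ZMod p) ≠ 0)
    (hd : IsSquare (((u ^ 2 - v ^ 2) * d : ℤ) : ZMod p)) :
    LocI ℚ_[p] (-2 * n * (2 * u ^ 2 - v ^ 2)) ((n * v ^ 2) ^ 2) d := by
  have hd0 : d ≠ 0 := by
    rintro rfl
    exact hdz (by simp)
  refine (Pool.Agent.Z864.LQ.t_LQ _ _ d D.b D.ab hd0).1 p (Or.inr ?_)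
  obtain ⟨w, hw⟩ := sqQ D.h2 ((u ^ 2 - v ^ 2) * d)
    ((quadraticChar_one_iff_isSquare (by rw [Int.cast_mul]; exact mul_ne_zero D.δ0 hdz)).2 hd)
  refine ⟨w * (4 * n * u), ?_⟩
  push_cast at hw ⊢
  linear_combination (4 * (n : ℚ_[p]) * u) ^ 2 * hw

/-- `δ` is not a square modulo `p`: every unit is a square or `δ` times a square -/
theorem Dt.loc_dich {d : ℤ} (hdz : (d : ZMod p) ≠ 0)
    (hcs : ¬ IsSquare ((u ^ 2 - v ^ 2 : ℤ) : ZMod p)) :
    LocI ℚ_[p] (-2 * n * (2 * u ^ 2 - v ^ 2)) ((n * v ^ 2) ^ 2) d := by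
  by_cases hd : IsSquare (d : ZMod p)
  · exact D.loc_sq hdz hd
  · refine D.loc_sqc hdz ?_
    rw [Int.cast_mul]
    exact mul_sq hcs hd

/-- the points of order two -/
theorem Dt.loc_tors {d n' d' x c : ℤ} (hd : d ≠ 0)
    (hn' : n = p * n') (hd' : d = p * d') (hx : x * c ^ 2 = -4 * u ^ 2 ∨
      x * c ^ 2 = -4 * (u ^ 2 - v ^ 2)) (hx0 : x * c ^ 2 ≠ 0)
    (hz : ((x * n' * d' : ℤ) : ZMod p) ≠ 0)
    (hs : IsSquare ((x * n' * d' : ℤ) : ZMod p)) :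
    LocI ℚ_[p] (-2 * n * (2 * u ^ 2 - v ^ 2)) ((n * v ^ 2) ^ 2) d := by
  obtain ⟨w, hw⟩ := sqQ D.h2 (x * n' * d') ((quadraticChar_one_iff_isSquare hz).2 hs)
  have hp0 : (p : ℚ_[p]) ≠ 0 := by exact_mod_cast hp.out.ne_zero
  have hn0 : (n : ℚ_[p]) ≠ 0 := by exact_mod_cast D.n0
  have hx0' : ((x * c ^ 2 : ℤ) : ℚ_[p]) ≠ 0 := by exact_mod_cast hx0
  have hd0' : d' ≠ 0 := by
    rintro rfl
    exact hd (by rw [hd', mul_zero])
  have hd0 : (d' : ℚ_[p]) ≠ 0 := by exact_mod_cast hd0'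
  refine ⟨((x * c ^ 2 : ℤ) : ℚ_[p]) * n, 0, c * w / d', mul_ne_zero hx0' hn0, ?_, ?_⟩
  · rcases hx with h | h <;> rw [h] <;> push_cast <;> ring
  · rw [hn', hd']
    push_cast at hw ⊢
    field_simp
    linear_combination (c : ℚ_[p]) ^ 2 * hw

end

/-- **IL-IS.** -/
theorem is_core (p : ℕ) [hp : Fact p.Prime] (n u v d : ℤ)
    (hbd : ¬ (p : ℤ) ∣ 2 * u * v * (u ^ 2 - v ^ 2)) (hn : Squarefree n) (hd : Squarefree d) :
  (¬ (p : ℤ) ∣ n → ¬ (p : ℤ) ∣ d → LocI ℚ_[p] (-2 * n * (2 * u ^ 2 - v ^ 2)) ((n * v ^ 2) ^ 2) d) ∧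
  ((p : ℤ) ∣ n → ¬ IsSquare ((u ^ 2 - v ^ 2 : ℤ) : ZMod p) →
    LocI ℚ_[p] (-2 * n * (2 * u ^ 2 - v ^ 2)) ((n * v ^ 2) ^ 2) d) ∧
  (¬ (p : ℤ) ∣ d → IsSquare (d : ZMod p) →
    LocI ℚ_[p] (-2 * n * (2 * u ^ 2 - v ^ 2)) ((n * v ^ 2) ^ 2) d) ∧
  ∀ n' d' : ℤ, n = p * n' → d = p * d' → IsSquare ((-n' * d' : ℤ) : ZMod p) →
    LocI ℚ_[p] (-2 * n * (2 * u ^ 2 - v ^ 2)) ((n * v ^ 2) ^ 2) d := by
  have D : Dt p n u v := by
    refine ⟨?_, hn.ne_zero, int_ne fun h => hbd ?_, int_ne fun h => hbd ?_, int_ne fun h => hbd ?_⟩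
    · rintro rfl
      apply hbd
      exact ⟨u * v * (u ^ 2 - v ^ 2), by push_cast; ring⟩
    · exact Dvd.dvd.mul_right (Dvd.dvd.mul_right (Dvd.dvd.mul_left h _) _) _
    · exact Dvd.dvd.mul_right (Dvd.dvd.mul_left h _) _
    · exact Dvd.dvd.mul_left h _
  have h2' := D.two
  have hd0 : d ≠ 0 := hd.ne_zero
  have hnd : ∀ {m m' : ℤ}, Squarefree m → m = p * m' → ¬ (p : ℤ) ∣ m' := by
    rintro m m' hm rfl ⟨j, rfl⟩
    have h1 := hm (p : ℤ) ⟨j, by ring⟩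
    have h2 := Int.isUnit_iff.1 h1
    have h3 := hp.out.one_lt
    omega
  have tors : ∀ n' d' : ℤ, n = p * n' → d = p * d' → IsSquare ((-n' * d' : ℤ) : ZMod p) →
      LocI ℚ_[p] (-2 * n * (2 * u ^ 2 - v ^ 2)) ((n * v ^ 2) ^ 2) d := by
    intro n' d' hn' hd' hs
    have hnz := int_ne (hnd hn hn')
    have hdz := int_ne (hnd hd hd')
    refine D.loc_tors (x := -1) (c := 2 * u) hd0 hn' hd' (Or.inl (by ring)) ?_ ?_ ?_
    · exact mul_ne_zero (by norm_num) (pow_ne_zero 2 (mul_ne_zero (by norm_num) D.uz))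
    · rw [Int.cast_mul, Int.cast_mul]
      refine mul_ne_zero (mul_ne_zero ?_ hnz) hdz
      push_cast
      exact neg_ne_zero.2 one_ne_zero
    · have e : (-1 * n' * d' : ℤ) = -n' * d' := by ring
      rw [e]
      exact hs
  refine ⟨?_, ?_, ?_, tors⟩
  · intro hpn hpd
    have hdz := int_ne hpd
    have hnz := int_ne hpn
    by_cases hds : IsSquare (d : ZMod p)
    · exact D.loc_sq hdz hds
    · by_cases hcs : IsSquare ((u ^ 2 - v ^ 2 : ℤ) : ZMod p)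
      · refine Pool.Agent.Z894.LG.aux p _ _ d D.h2 ?_ ?_ hd0
          (quadraticChar_neg_one_iff_not_isSquare.2 hds)
        · push_cast
          exact pow_ne_zero 2 (mul_ne_zero hnz (pow_ne_zero 2 D.v0))
        · have h4 : (4 : ZMod p) ≠ 0 := by
            have e : (4 : ZMod p) = 2 ^ 2 := by norm_num
            rw [e]
            exact pow_ne_zero 2 h2'
          have e : (((-2 * n * (2 * u ^ 2 - v ^ 2) : ℤ) : ZMod p)) ^ 2 -
              4 * ((((n * v ^ 2) ^ 2 : ℤ)) : ZMod p) =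
              ((u ^ 2 - v ^ 2 : ℤ) : ZMod p) * (4 * (n : ZMod p) * u) ^ 2 := by
            push_cast
            ring
          rw [e, map_mul, (quadraticChar_one_iff_isSquare D.δ0).2 hcs,
            quadraticChar_sq_one' (mul_ne_zero (mul_ne_zero h4 hnz) D.u0), one_mul]
      · exact D.loc_dich hdz hcs
  · intro hpn hcs
    by_cases hpd : (p : ℤ) ∣ d
    · obtain ⟨n', hn'⟩ := hpn
      obtain ⟨d', hd'⟩ := hpd
      by_cases hs : IsSquare ((-n' * d' : ℤ) : ZMod p)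
      · exact tors n' d' hn' hd' hs
      · have hnz := int_ne (hnd hn hn')
        have hdz := int_ne (hnd hd hd')
        refine D.loc_tors (x := -(u ^ 2 - v ^ 2)) (c := 2) hd0 hn' hd' (Or.inr (by ring)) ?_ ?_ ?_
        · exact mul_ne_zero (neg_ne_zero.2 D.δz) (by norm_num)
        · rw [Int.cast_mul, Int.cast_mul, Int.cast_neg]
          exact mul_ne_zero (mul_ne_zero (neg_ne_zero.2 D.δ0) hnz) hdz
        · have h5 := mul_sq hcs hs
          have e : (((-(u ^ 2 - v ^ 2)) * n' * d' : ℤ) : ZMod p) =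
              ((u ^ 2 - v ^ 2 : ℤ) : ZMod p) * ((-n' * d' : ℤ) : ZMod p) := by
            push_cast
            ring
          rw [e]
          exact h5
    · exact D.loc_dich (int_ne hpd) hcs
  · intro hpd hds
    exact D.loc_sq (int_ne hpd) hds

end Pool.Agent.N286.IL
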