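import Mathlib
import Pool.Agent.N818.IL.Stm
import Pool.Agent.N286.IL.ISBase

/-!
# Project IL (helper818), part IS: sufficiency at the good primes

By helper286.
-/

set_option autoImplicit false

namespace Pool.Agent.N286.IL

/-- **IL-IS.** -/
theorem t_IS : Pool.Agent.N818.IL.S_IS := by
  intro p hp n u v d hbd hn hd
  exact is_core p n u v d hbd hn hd

end Pool.Agent.N286.IL
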